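import Pool.Agent.H73.MR.Abun

/-!
Abundance for the finite images of varieties whose pseudo-automorphisms act on `N¹` through a group
which contains a free abelian group of maximal rank.
-/

set_option autoImplicit false

open FF Pool.Agent.W602.GT Pool.Agent.Y172 Pool.Agent.R887 Pool.Agent.N110 Pool.Agent.N110.CC

/-- Let `X'` be a normal projective variety of dimension `n ≥ 1`, with generic point `y'`. Let the
vectors `c' P` be the classes of the prime divisors in `N¹(X') = ℤ ^ (r + 1)`, `r ≥ 1` (if `X'` is
`ℚ`-factorial then `r + 1` is the Picard number `ρ` of `X'`). Suppose that the group of the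
pseudo-automorphisms of `X'` acts on `N¹(X') ⊗ ℝ` through a group which contains a free abelian group
of rank `r = ρ - 1`: there are linear maps `G v`, `v ∈ ℤ ^ r`, with `G (u + v) = G u * G v`, `G v ≠ 1`
for `v ≠ 0`, which are pull backs by pseudo-automorphisms. There is no condition on the entropy of
these maps.

Let `X' → X` be a finite morphism onto a normal projective variety `X`, for instance `X = X'` or the
quotient by a finite group, given by the homomorphism `π` of the function fields (more generally, a
rational map which is a finite morphism in codimension one). The morphism has nothing to do with the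
pseudo-automorphisms. Let `Δ` be a `ℚ`-divisor on `X`, for instance `Δ = 0`, such that `K_X + Δ` is
pseudo-effective, for instance nef (then `X` is a minimal variety, if `Δ = 0` and the singularities are
terminal).

Then one of the following holds: (1) the divisor `K_X + Δ` is numerically trivial (`- (K_X + Δ)` is
pseudo-effective, too), and if the irregularity of `X` is zero then it is torsion: `m (K_X + Δ) ~ 0` for
some `m ≥ 1`; (2) `K_X + Δ` is big, and `Δ` is not at most the branch divisor: its coefficient at some
prime divisor `P` is greater than `1 - 1 / e` for some ramification index `e` over `P`. If `Δ = 0` and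
`X' → X` is the identity, or the quotient by a finite group, or any finite morphism, the second case
is not possible, so that `K_X` is numerically trivial, and torsion if the irregularity is zero. -/
theorem Pool.Agent.Results.MP_5ff3c6_ag.FaithfulMaximalRank.result
    {K K' : Type} [Field K] [Algebra ℂ K] [Field K'] [Algebra ℂ K'] {N N' n r : ℕ}
    {y : Fin (N + 1) → K} {y' : Fin (N' + 1) → K'} (hy : NormalModel y) (hy' : NormalModel y')
    (hn : Algebra.trdeg ℂ K = n) (hn' : Algebra.trdeg ℂ K' = n) (hn0 : 0 < n) (hr : 0 < r)
    {c' : Place ℂ K' → Fin (r + 1) → ℤ} (hc' : PicardBasis y' c')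
    {G : (Fin r → ℤ) → ((Fin (r + 1) → ℝ) ≃ₗ[ℝ] (Fin (r + 1) → ℝ))}
    (hG : ∀ u v, G (u + v) = G u * G v) (hG1 : ∀ v, v ≠ 0 → G v ≠ 1)
    (hGP : ∀ v, ∃ ψ, PseudoAut ψ y' ∧ IsPullBack y' c' ψ (G v))
    {π : K →ₐ[ℂ] K'} (hπ : FiniteMap π y y') {Δ : Place ℂ K → ℚ}
    (hΔ : {P | IsPrimeDivisor y P ∧ Δ P ≠ 0}.Finite) (hps : LogPsef y n Δ) :
    (LogAntiPsef y n Δ ∧ (IrregularityZero y → LogTorsion y n Δ)) ∨
      (LogBig y n Δ ∧ ∃ Q P e, IsPrimeDivisor y' Q ∧ LiesOver π Q P e ∧
        (e : ℚ) * (1 - Δ P) < 1) :=
  Pool.Agent.H73.MR.abundanceF hy hy' hn hn' hn0 hr hc' hG hG1 hGP hπ hΔ hps
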